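import Mathlib
import Pool.Agent.Q96.Bratteli

/-!
# A finite tail-invariant measure without a finite Perron eigenvalue

On the vertex set `ℤ` take `|w| + 2` edges from `w` to `w + 1` for every `w`, and one edge from
`w` to `-w` for every `w ≥ 0`.
-/

set_option autoImplicit false

open MeasureTheory Filter Topology
open scoped ENNReal

namespace Pool.Agent.Results.MP_17dcfb_an.FiniteMeasureWithoutPerron

open Q96.Bratteli

/-- the incidence matrix -/
def FF (v w : ℤ) : ℕ := if v = w + 1 then w.natAbs + 2 else if 0 ≤ w ∧ v = -w then 1 else 0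

lemma FF_up (w : ℤ) : FF (w + 1) w = w.natAbs + 2 := by simp [FF]

lemma FF_flip (w : ℤ) (h : 0 ≤ w) : FF (-w) w = 1 := by
  unfold FF
  rw [if_neg (by omega), if_pos ⟨h, rfl⟩]

lemma FF_zero (v w : ℤ) (h1 : v ≠ w + 1) (h2 : ¬ (0 ≤ w ∧ v = -w)) : FF v w = 0 := by
  unfold FF
  rw [if_neg h1, if_neg h2]

lemma isDiagram : IsDiagram FF where
  finite_out w := by
    apply (Set.toFinite {w + 1, -w}).subset
    intro v hv
    simp only [Set.mem_ofPred_eq] at hv
    by_contra h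
    simp only [Set.mem_insert_iff, Set.mem_singleton_iff, not_or] at h
    exact hv (FF_zero v w h.1 (fun h' => h.2 h'.2))
  finite_in v := by
    apply (Set.toFinite {v - 1, -v}).subset
    intro w hw
    simp only [Set.mem_ofPred_eq] at hw
    by_contra h
    simp only [Set.mem_insert_iff, Set.mem_singleton_iff, not_or] at h
    exact hw (FF_zero v w (fun h' => h.1 (by omega)) (fun h' => h.2 (by omega)))
  emits w := ⟨w + 1, by rw [FF_up]; omega⟩
  receives v := ⟨v - 1, by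
    have := FF_up (v - 1)
    rw [sub_add_cancel] at this
    rw [this]; omega⟩

/-! ### powers of the incidence matrix -/

/-- abbreviation for the powers -/
noncomputable abbrev M (n : ℕ) (i j : ℤ) : ℕ := mpow FF n i j

lemma M_zero (i j : ℤ) : M 0 i j = if i = j then 1 else 0 := by
  simp [M, mpow]

lemma M_succ (n : ℕ) (i j : ℤ) : M (n + 1) i j =
    ((i - 1).natAbs + 2) * M n (i - 1) j + if i ≤ 0 then M n (-i) j else 0 := by
  have h : M (n + 1) i j = ∑ᶠ k, FF i k * M n k j := rfl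
  have h1 : FF i (i - 1) = (i - 1).natAbs + 2 := by
    have := FF_up (i - 1); rwa [sub_add_cancel] at this
  rw [h, finsum_eq_sum_of_support_subset (s := {i - 1, -i})]
  · rw [Finset.sum_pair (by omega), h1]
    congr 1
    split_ifs with hi
    · have := FF_flip (-i) (by omega)
      rw [neg_neg] at this
      rw [this, one_mul]
    · rw [FF_zero i (-i) (by omega) (by omega), zero_mul]
  · intro k hk
    simp only [Function.mem_support] at hk
    by_contra h
    simp only [Finset.coe_insert, Finset.coe_singleton, Set.mem_insert_iff,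
      Set.mem_singleton_iff, not_or] at h
    apply hk
    rw [FF_zero i k (fun h' => h.1 (by omega)) (fun h' => h.2 (by omega)), zero_mul]

lemma M_mul (m n : ℕ) (i k j : ℤ) : M m i k * M n k j ≤ M (m + n) i j := by
  induction m generalizing i with
  | zero =>
    rw [M_zero]
    split_ifs with h
    · subst h; simp
    · simp
  | succ m ih =>
    rw [show m + 1 + n = (m + n) + 1 by ring, M_succ, M_succ, add_mul]
    apply Nat.add_le_add
    · rw [mul_assoc]
      exact Nat.mul_le_mul_left _ (ih _)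
    · split_ifs
      · exact ih _
      · simp

lemma M_shift (n : ℕ) (i : ℤ) : 1 ≤ M n i (i - n) := by
  induction n generalizing i with
  | zero => simp [M_zero]
  | succ n ih =>
    rw [M_succ]
    have := ih (i - 1)
    have e : (i - 1 - n : ℤ) = i - (n + 1 : ℕ) := by push_cast; ring
    rw [e] at this
    have h2 : 1 ≤ ((i - 1).natAbs + 2) * M n (i - 1) (i - (n + 1 : ℕ)) :=
      Nat.mul_pos (by omega) this
    omega

lemma M_fact (w : ℕ) : w.factorial ≤ M w w 0 := by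
  induction w with
  | zero => simp [M_zero]
  | succ w ih =>
    rw [M_succ, Nat.factorial_succ]
    have e : (((w + 1 : ℕ) : ℤ) - 1) = w := by push_cast; ring
    rw [e, Int.natAbs_natCast]
    have : (w + 1) * w.factorial ≤ (w + 2) * M w w 0 := Nat.mul_le_mul (by omega) ih
    omega

lemma M_flip (w : ℕ) : 1 ≤ M 1 (-w) w := by
  have := M_succ 0 (-w) w
  rw [zero_add] at this
  have h2 : M 0 (- -(w : ℤ)) w = 1 := by rw [M_zero, if_pos (by ring)]
  rw [this, if_pos (by omega), h2]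
  omega

lemma M_cycle (w : ℕ) : w.factorial ≤ M (2 * w + 1) 0 0 := by
  have h1 : 1 ≤ M w 0 (-w) := by simpa using M_shift w 0
  have h2 := M_flip w
  have h3 := M_fact w
  calc w.factorial = 1 * (1 * w.factorial) := by ring
    _ ≤ M w 0 (-w) * (M 1 (-w) w * M w w 0) :=
        Nat.mul_le_mul h1 (Nat.mul_le_mul h2 h3)
    _ ≤ M w 0 (-w) * M (1 + w) (-w) 0 := Nat.mul_le_mul_left _ (M_mul _ _ _ _ _)
    _ ≤ M (w + (1 + w)) 0 0 := M_mul _ _ _ _ _
    _ = M (2 * w + 1) 0 0 := by congr 1; ring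

lemma M_loop (r : ℕ) : 1 ≤ M r 0 0 := by
  induction r with
  | zero => simp [M_zero]
  | succ r ih =>
    rw [M_succ]
    simp only [le_refl, if_true, neg_zero]
    omega

lemma M_pow (L q : ℕ) : (M L 0 0) ^ q ≤ M (q * L) 0 0 := by
  induction q with
  | zero => simp [M_zero]
  | succ q ih =>
    rw [pow_succ, add_mul, one_mul]
    exact le_trans (Nat.mul_le_mul_right _ ih) (M_mul _ _ _ _ _)

/-- from `0` to any vertex and from any vertex to `0` -/
lemma M_to (i : ℤ) : ∃ a, 1 ≤ M a i 0 := by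
  rcases le_total 0 i with h | h
  · obtain ⟨k, rfl⟩ := Int.eq_ofNat_of_zero_le h
    exact ⟨k, by simpa using M_shift k k⟩
  · obtain ⟨k, hk⟩ := Int.eq_ofNat_of_zero_le (neg_nonneg.mpr h)
    have hk' : i = -(k : ℤ) := by omega
    subst hk'
    refine ⟨1 + k, le_trans ?_ (M_mul _ _ _ k _)⟩
    have h1 := M_flip k
    have h2 : 1 ≤ M k k 0 := by simpa using M_shift k k
    nlinarith

lemma M_from (j : ℤ) : ∃ b, 1 ≤ M b 0 j := by
  rcases le_total 0 j with h | h
  · obtain ⟨k, rfl⟩ := Int.eq_ofNat_of_zero_le h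
    refine ⟨k + 1, le_trans ?_ (M_mul _ _ _ (-k) _)⟩
    have h1 := M_flip k
    have h2 : 1 ≤ M k 0 (-k) := by simpa using M_shift k 0
    nlinarith
  · obtain ⟨k, hk⟩ := Int.eq_ofNat_of_zero_le (neg_nonneg.mpr h)
    have hk' : j = -(k : ℤ) := by omega
    subst hk'
    exact ⟨k, by simpa using M_shift k 0⟩

lemma irred : Irred FF := by
  intro i j
  obtain ⟨a, ha⟩ := M_to i
  obtain ⟨b, hb⟩ := M_from j
  refine ⟨a + (1 + b), by omega, ?_⟩
  have h1 := M_mul a (1 + b) i 0 j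
  have h2 := M_mul 1 b 0 0 j
  have h3 := M_loop 1
  have h4 : 1 ≤ M (1 + b) 0 j := by nlinarith
  have h5 : 1 ≤ M (a + (1 + b)) i j := by nlinarith
  exact h5

lemma aperiodic : Aperiodic FF := by
  intro i d hd
  obtain ⟨a, ha⟩ := M_to i
  obtain ⟨b, hb⟩ := M_from i
  have h1 : d ∣ a + (1 + b) := by
    apply hd
    have h1 := M_mul a (1 + b) i 0 i
    have h2 := M_mul 1 b 0 0 i
    have h3 := M_loop 1
    have h4 : 1 ≤ M (1 + b) 0 i := by nlinarith
    have h5 : 1 ≤ M (a + (1 + b)) i i := by nlinarith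
    exact h5
  have h2 : d ∣ a + b := by
    apply hd
    have h1 := M_mul a b i 0 i
    have h5 : 1 ≤ M (a + b) i i := by nlinarith
    exact h5
  have h3 : d ∣ (a + (1 + b)) - (a + b) := Nat.dvd_sub h1 h2
  have h4 : (a + (1 + b)) - (a + b) = 1 := by omega
  rw [h4] at h3
  exact Nat.dvd_one.mp h3

lemma exists_fact (C : ℕ) : ∃ w : ℕ, C ^ (2 * (2 * w + 1)) ≤ w.factorial := by
  have h := FloorSemiring.tendsto_pow_div_factorial_atTop ((C : ℝ) ^ 4)
  have h2 : (0 : ℝ) < 1 / (C ^ 2 + 1) := by positivity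
  obtain ⟨w, hw⟩ := (h.eventually (gt_mem_nhds h2)).exists
  refine ⟨w, ?_⟩
  have hf : (0 : ℝ) < w.factorial := by exact_mod_cast w.factorial_pos
  rw [div_lt_div_iff₀ hf (by positivity)] at hw
  have h3 : ((C ^ (2 * (2 * w + 1)) : ℕ) : ℝ) ≤ (w.factorial : ℕ) := by
    push_cast
    have e : (C : ℝ) ^ (2 * (2 * w + 1)) = ((C : ℝ) ^ 4) ^ w * (C : ℝ) ^ 2 := by ring
    rw [e]
    have : (0 : ℝ) ≤ ((C : ℝ) ^ 4) ^ w := by positivity
    nlinarith
  exact_mod_cast h3

lemma M_large (C : ℕ) (hC : 1 ≤ C) : ∃ N, ∀ n, N ≤ n → C ^ n ≤ M n 0 0 := by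
  obtain ⟨w, hw⟩ := exists_fact C
  set L := 2 * w + 1 with hL
  refine ⟨L, fun n hn => ?_⟩
  have h1 : C ^ (2 * L) ≤ M L 0 0 := le_trans hw (M_cycle w)
  have hdm := Nat.div_add_mod n L
  set q := n / L with hq
  set r := n % L with hr
  have hr' : r < L := Nat.mod_lt _ (by omega)
  have hq1 : 1 ≤ q := by
    rw [hq]; exact Nat.div_pos hn (by omega)
  have h2 : M (q * L) 0 0 * M r 0 0 ≤ M (q * L + r) 0 0 := M_mul _ _ _ _ _
  have h3 := M_pow L q
  have h4 := M_loop r
  have e : q * L + r = n := by rw [mul_comm]; exact hdm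
  rw [e] at h2
  calc C ^ n ≤ C ^ (2 * L * q) := Nat.pow_le_pow_right hC (by nlinarith)
    _ = (C ^ (2 * L)) ^ q := by rw [pow_mul]
    _ ≤ (M L 0 0) ^ q := Nat.pow_le_pow_left h1 q
    _ ≤ M (q * L) 0 0 := h3
    _ ≤ M (q * L) 0 0 * M r 0 0 := Nat.le_mul_of_pos_right _ h4
    _ ≤ M n 0 0 := h2

lemma perronInfinite : PerronInfinite FF := by
  intro i j
  obtain ⟨a, ha⟩ := M_to i
  obtain ⟨b, hb⟩ := M_from j
  rw [tendsto_atTop_atTop]
  intro K
  obtain ⟨K', hK'⟩ := exists_nat_ge (max K 1)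
  have hK1 : 1 ≤ K' := by
    have : (1 : ℝ) ≤ K' := le_trans (le_max_right _ _) hK'
    exact_mod_cast this
  obtain ⟨N, hN⟩ := M_large (K' ^ 2) (Nat.one_le_pow _ _ hK1)
  refine ⟨N + 2 * (a + b) + 1, fun n hn => ?_⟩
  have h1 : K' ^ n ≤ M n i j := by
    obtain ⟨k, rfl⟩ : ∃ k, n = a + (k + b) := ⟨n - a - b, by omega⟩
    have hk : N ≤ k := by omega
    have h2 := hN k hk
    have h3 := M_mul a (k + b) i 0 j
    have h4 := M_mul k b 0 0 j
    have h5 : M k 0 0 ≤ M (a + (k + b)) i j := by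
      calc M k 0 0 = 1 * (M k 0 0 * 1) := by ring
        _ ≤ M a i 0 * (M k 0 0 * M b 0 j) :=
          Nat.mul_le_mul ha (Nat.mul_le_mul_left _ hb)
        _ ≤ M a i 0 * M (k + b) 0 j := Nat.mul_le_mul_left _ h4
        _ ≤ _ := h3
    refine le_trans ?_ h5
    refine le_trans ?_ h2
    rw [← pow_mul]
    exact Nat.pow_le_pow_right hK1 (by omega)
  have hn0 : n ≠ 0 := by omega
  have h2 : ((K' : ℝ)) ^ n ≤ ((mpow FF n i j : ℕ) : ℝ) := by exact_mod_cast h1
  calc K ≤ K' := le_trans (le_max_left _ _) hK'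
    _ = (((K' : ℝ)) ^ n) ^ (1 / (n : ℝ)) := by
        rw [one_div, Real.pow_rpow_inv_natCast (by positivity) hn0]
    _ ≤ _ := Real.rpow_le_rpow (by positivity) h2 (by positivity)

/-! ### the positive harmonic sequence -/

/-- number of paths of length `k` from `v` to `0` -/
def Q : ℕ → ℤ → ℕ
  | 0, v => if v = 0 then 1 else 0
  | k + 1, v => (v.natAbs + 2) * Q k (v + 1) + if 0 ≤ v then Q k (-v) else 0

lemma Q_supp (k : ℕ) (v : ℤ) (h : Q k v ≠ 0) : v ∈ Finset.Icc (-(k : ℤ)) k := by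
  induction k generalizing v with
  | zero =>
    simp only [Q] at h
    have : v = 0 := by by_contra h'; simp [h'] at h
    subst this; simp
  | succ k ih =>
    rw [Q] at h
    rw [Finset.mem_Icc]
    push_cast
    by_cases h1 : Q k (v + 1) = 0
    · rw [h1] at h
      by_cases h2 : 0 ≤ v
      · rw [if_pos h2] at h
        have := ih (-v) (by simpa using h)
        rw [Finset.mem_Icc] at this
        omega
      · simp [h2] at h
    · have := ih _ h1
      rw [Finset.mem_Icc] at this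
      omega

lemma Q_neg (k : ℕ) : 1 ≤ Q k (-k) := by
  induction k with
  | zero => simp [Q]
  | succ k ih =>
    rw [Q]
    have e : (-((k + 1 : ℕ) : ℤ) + 1) = -(k : ℤ) := by push_cast; ring
    rw [e]
    have h2 : 1 ≤ ((-((k + 1 : ℕ) : ℤ)).natAbs + 2) * Q k (-k) := Nat.mul_pos (by omega) ih
    omega

lemma Q_pos (v : ℤ) : ∃ k, 1 ≤ Q k v := by
  rcases le_total v 0 with h | h
  · obtain ⟨k, hk⟩ := Int.eq_ofNat_of_zero_le (neg_nonneg.mpr h)
    have hk' : v = -(k : ℤ) := by omega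
    subst hk'
    exact ⟨k, Q_neg k⟩
  · obtain ⟨k, rfl⟩ := Int.eq_ofNat_of_zero_le h
    refine ⟨k + 1, ?_⟩
    rw [Q, if_pos (by omega)]
    have := Q_neg k
    omega

/-- masses for the ray passing through `0` at level `t` -/
noncomputable def P (t n : ℕ) (v : ℤ) : ℝ≥0∞ :=
  if n ≤ t then (Q (t - n) v : ℝ≥0∞)
  else if v = (n : ℤ) - t then (∏ j ∈ Finset.range (n - t), ((j : ℝ≥0∞) + 2))⁻¹ else 0

lemma prod_ne_zero (k : ℕ) : (∏ j ∈ Finset.range k, ((j : ℝ≥0∞) + 2)) ≠ 0 := by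
  rw [Finset.prod_ne_zero_iff]
  intro j _
  positivity

lemma prod_ne_top (k : ℕ) : (∏ j ∈ Finset.range k, ((j : ℝ≥0∞) + 2)) ≠ ∞ := by
  apply ENNReal.prod_ne_top
  intro j _
  finiteness

lemma P_le (t n : ℕ) (v : ℤ) (h : n ≤ t) : P t n v = (Q (t - n) v : ℝ≥0∞) := by
  unfold P; rw [if_pos h]

lemma P_on (t n : ℕ) (v : ℤ) (h : t < n) (hv : v = (n : ℤ) - t) :
    P t n v = (∏ j ∈ Finset.range (n - t), ((j : ℝ≥0∞) + 2))⁻¹ := by
  unfold P; rw [if_neg (by omega), if_pos hv]

lemma P_off (t n : ℕ) (v : ℤ) (h : t < n) (hv : v ≠ (n : ℤ) - t) : P t n v = 0 := by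
  unfold P; rw [if_neg (by omega), if_neg hv]

lemma P_flip (t n : ℕ) (v : ℤ) (h : t ≤ n) : (if 0 ≤ v then P t (n + 1) (-v) else 0) = 0 := by
  split_ifs with h1
  · exact P_off _ _ _ (by omega) (by push_cast; omega)
  · rfl

lemma P_rec (t n : ℕ) (v : ℤ) : P t n v =
    ((v.natAbs : ℝ≥0∞) + 2) * P t (n + 1) (v + 1) + if 0 ≤ v then P t (n + 1) (-v) else 0 := by
  rcases lt_trichotomy n t with h | h | h
  · rw [P_le t n v (by omega), P_le t (n + 1) (v + 1) (by omega), P_le t (n + 1) (-v) (by omega)]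
    obtain ⟨k, hk⟩ : ∃ k, t - n = k + 1 := ⟨t - n - 1, by omega⟩
    rw [hk, show t - (n + 1) = k by omega, Q]
    push_cast
    rfl
  · subst h
    rw [P_flip n n v le_rfl, add_zero, P_le n n v le_rfl, Nat.sub_self]
    by_cases hv : v = 0
    · subst hv
      rw [P_on n (n + 1) (0 + 1) (by omega) (by push_cast; omega), show n + 1 - n = 1 by omega]
      simp only [Q, Finset.prod_range_one, if_true]
      norm_num
      rw [ENNReal.mul_inv_cancel (by norm_num) (by norm_num)]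
    · rw [P_off n (n + 1) (v + 1) (by omega) (by push_cast; omega)]
      simp [Q, hv]
  · rw [P_flip t n v h.le, add_zero]
    by_cases hv : v = (n : ℤ) - t
    · rw [P_on t n v h hv, P_on t (n + 1) (v + 1) (by omega) (by push_cast; omega)]
      have e : n + 1 - t = (n - t) + 1 := by omega
      rw [e, Finset.prod_range_succ]
      have e2 : v.natAbs = n - t := by omega
      rw [e2]
      have hne : (((n - t : ℕ) : ℝ≥0∞) + 2) ≠ 0 := by positivity
      have hnt : (((n - t : ℕ) : ℝ≥0∞) + 2) ≠ ∞ := by finiteness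
      rw [ENNReal.mul_inv (Or.inr hnt) (Or.inr hne), mul_comm, mul_assoc,
        ENNReal.inv_mul_cancel hne hnt, mul_one]
    · rw [P_off t n v h hv, P_off t (n + 1) (v + 1) (by omega) (by push_cast; omega), mul_zero]

/-- total mass at level `0` -/
noncomputable def S (t : ℕ) : ℝ≥0∞ := ∑' v : ℤ, (Q t v : ℝ≥0∞)

lemma S_ne_top (t : ℕ) : S t ≠ ∞ := by
  unfold S
  rw [tsum_eq_sum (s := Finset.Icc (-(t : ℤ)) t)]
  · exact ENNReal.sum_ne_top.mpr fun v _ => ENNReal.natCast_ne_top _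
  · intro v hv
    have : Q t v = 0 := by
      by_contra h; exact hv (Q_supp t v h)
    rw [this]; simp

/-- weights -/
noncomputable def c (t : ℕ) : ℝ≥0∞ := (2 ^ t * (1 + S t))⁻¹

lemma c_ne_zero (t : ℕ) : c t ≠ 0 := by
  unfold c
  rw [ENNReal.inv_ne_zero]
  have := S_ne_top t
  finiteness

lemma c_mul (t : ℕ) : c t * S t ≤ (2⁻¹) ^ t := by
  unfold c
  have h1 : (1 + S t) ≠ 0 := by positivity
  have h2 : (1 + S t) ≠ ∞ := by have := S_ne_top t; finiteness
  rw [ENNReal.mul_inv (Or.inr h2) (Or.inr h1), mul_assoc, ← ENNReal.inv_pow]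
  calc ((2 : ℝ≥0∞) ^ t)⁻¹ * ((1 + S t)⁻¹ * S t) ≤ ((2 : ℝ≥0∞) ^ t)⁻¹ * ((1 + S t)⁻¹ * (1 + S t)) := by
        gcongr; exact le_add_self
    _ = ((2 : ℝ≥0∞) ^ t)⁻¹ := by rw [ENNReal.inv_mul_cancel h1 h2, mul_one]

/-- the harmonic sequence -/
noncomputable def p (n : ℕ) (v : ℤ) : ℝ≥0∞ := ∑' t, c t * P t n v

lemma p_rec (n : ℕ) (v : ℤ) : p n v =
    ((v.natAbs : ℝ≥0∞) + 2) * p (n + 1) (v + 1) + if 0 ≤ v then p (n + 1) (-v) else 0 := by
  unfold p
  have : (if 0 ≤ v then ∑' t, c t * P t (n + 1) (-v) else 0) =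
      ∑' t, c t * (if 0 ≤ v then P t (n + 1) (-v) else 0) := by
    split_ifs <;> simp
  rw [this, ← ENNReal.tsum_mul_left, ← ENNReal.tsum_add]
  congr 1; ext t
  rw [P_rec t n v]
  ring

lemma p_rec' (n : ℕ) (v : ℤ) : p n v = ∑' w, (FF w v : ℝ≥0∞) * p (n + 1) w := by
  rw [p_rec, tsum_eq_sum (s := {v + 1, -v})]
  · rw [Finset.sum_pair (by omega), FF_up]
    push_cast
    congr 1
    split_ifs with h
    · rw [FF_flip v h]; simp
    · rw [FF_zero (-v) v (by omega) (by omega)]; simp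
  · intro w hw
    simp only [Finset.mem_insert, Finset.mem_singleton, not_or] at hw
    rw [FF_zero w v hw.1 (fun h => hw.2 h.2)]; simp

lemma p_total : ∑' v, p 0 v ≤ 2 := by
  unfold p
  rw [ENNReal.tsum_comm]
  calc ∑' t, ∑' v, c t * P t 0 v = ∑' t, c t * S t := by
        congr 1; ext t
        rw [ENNReal.tsum_mul_left]
        congr 1
    _ ≤ ∑' t : ℕ, (2⁻¹ : ℝ≥0∞) ^ t := ENNReal.tsum_le_tsum c_mul
    _ = 2 := by
        rw [ENNReal.tsum_geometric, ENNReal.one_sub_inv_two, inv_inv]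

lemma p_half (n : ℕ) (v : ℤ) : 2 * p (n + 1) (v + 1) ≤ p n v := by
  rw [p_rec n v]
  refine le_trans ?_ le_self_add
  gcongr
  exact le_add_self

lemma p_bound (n : ℕ) (v : ℤ) : 2 ^ n * p n v ≤ 2 := by
  induction n generalizing v with
  | zero =>
    rw [pow_zero, one_mul]
    exact le_trans (ENNReal.le_tsum v) p_total
  | succ n ih =>
    have h := p_half n (v - 1)
    rw [sub_add_cancel] at h
    calc (2 : ℝ≥0∞) ^ (n + 1) * p (n + 1) v = 2 ^ n * (2 * p (n + 1) v) := by ring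
      _ ≤ 2 ^ n * p n (v - 1) := by gcongr
      _ ≤ 2 := ih _

lemma p_ne_top (n : ℕ) (v : ℤ) : p n v ≠ ∞ := by
  intro h
  have := p_bound n v
  rw [h, ENNReal.mul_top (by positivity)] at this
  exact absurd this (by simp)

lemma p_ne_zero (n : ℕ) (v : ℤ) : p n v ≠ 0 := by
  obtain ⟨k, hk⟩ := Q_pos v
  intro h
  unfold p at h
  rw [ENNReal.tsum_eq_zero] at h
  have h1 := h (n + k)
  rw [mul_eq_zero] at h1
  rcases h1 with h1 | h1
  · exact c_ne_zero _ h1
  · unfold P at h1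
    rw [if_pos (by omega), Nat.add_sub_cancel_left] at h1
    have : Q k v = 0 := by exact_mod_cast h1
    omega

/-- **Q1, positive answer.** There is a stationary generalized Bratteli diagram whose incidence
matrix is irreducible and aperiodic and has no finite Perron eigenvalue, and which carries a finite
tail-invariant measure; moreover the measure is positive on all cylinder sets and non-atomic. -/
theorem result : ∃ F : ℤ → ℤ → ℕ, IsDiagram F ∧ Irred F ∧ Aperiodic F ∧ PerronInfinite F ∧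
    ∃ μ : Measure (Path F), μ Set.univ < ∞ ∧ TailInvariant μ ∧
      (∀ (m : ℕ) (e : ℕ → Edge F), IsFinPath e m → 0 < μ (cyl e m)) ∧
      (∀ x : Path F, μ {x} = 0) := by
  obtain ⟨μ, hμ, hcyl⟩ := exists_measure (F := FF) p p_ne_zero p_ne_top p_rec'
  refine ⟨FF, isDiagram, irred, aperiodic, perronInfinite, μ, ?_, ⟨?_, ?_⟩, ?_, ?_⟩
  · rw [hμ]; exact lt_of_le_of_lt p_total (by norm_num)
  · rintro rfl
    have h0 : ∑' v, p 0 v = 0 := by rw [← hμ]; simp
    rw [ENNReal.tsum_eq_zero] at h0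
    exact p_ne_zero 0 0 (h0 0)
  · intro m e e' he he' h
    rw [hcyl e m he, hcyl e' m he', h]
  · intro m e he
    rw [hcyl e m he]
    exact pos_iff_ne_zero.mpr (p_ne_zero _ _)
  · intro x
    have h1 : ∀ m : ℕ, μ {x} ≤ 2 * (2⁻¹) ^ (m + 1) := by
      intro m
      have h2 : μ {x} ≤ μ (cyl x.1 m) := by
        apply measure_mono
        rintro y rfl
        exact fun i _ => rfl
      rw [hcyl x.1 m (fun i _ => x.2 i)] at h2
      refine le_trans h2 ?_
      have h3 := p_bound (m + 1) (rng (x.1 m))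
      rw [← ENNReal.inv_pow, ← div_eq_mul_inv, ENNReal.le_div_iff_mul_le (by simp) (by simp)]
      rwa [mul_comm] 
    have h2 : Tendsto (fun m : ℕ => 2 * ((2⁻¹ : ℝ≥0∞)) ^ (m + 1)) atTop (𝓝 (2 * 0)) := by
      apply ENNReal.Tendsto.const_mul _ (Or.inr (by norm_num))
      exact (ENNReal.tendsto_pow_atTop_nhds_zero_of_lt_one (by norm_num)).comp
        (tendsto_add_atTop_nat 1)
    rw [mul_zero] at h2
    exact le_antisymm (ge_of_tendsto' h2 h1) zero_le

end Pool.Agent.Results.MP_17dcfb_an.FiniteMeasureWithoutPerron
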