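import Mathlib
import Pool.Agent.Q96.Bratteli

/-!
# No finite tail-invariant measure for the tridiagonal matrix with diagonal `2, 3, 4, …`

The vertices `1, 2, …` are renamed `0, 1, …`, so that the diagonal entry at `i` is `i + 2`.
-/

set_option autoImplicit false

open MeasureTheory Filter Topology
open scoped ENNReal

namespace Pool.Agent.Results.MP_17dcfb_an.NoFiniteMeasureTridiagonal

open Q96.Bratteli

/-- the tridiagonal incidence matrix, indexed from `0`: diagonal entries `i + 2`, off-diagonal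
entries `1` -/
def tri (i j : ℕ) : ℕ := if i = j then i + 2 else if i = j + 1 ∨ j = i + 1 then 1 else 0

/-! ### the likelihood ratio order -/

/-- one step of the recursion -/
def step (a : ℕ → ℕ) (v : ℕ) : ℕ := (if v = 0 then 0 else a (v - 1)) + (v + 2) * a v + a (v + 1)

/-- number of paths of length `n` from `v` to `u` -/
def G (u : ℕ) : ℕ → ℕ → ℕ
  | 0 => fun v => if v = u then 1 else 0
  | n + 1 => step (G u n)

/-- likelihood ratio order -/
def LR (f g : ℕ → ℕ) : Prop := ∀ v v', v < v' → f v' * g v ≤ f v * g v'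

lemma step_zero (a : ℕ → ℕ) : step a 0 = 2 * a 0 + a 1 := by simp [step]

lemma step_succ (a : ℕ → ℕ) (v : ℕ) :
    step a (v + 1) = a v + (v + 3) * a (v + 1) + a (v + 2) := by simp [step]

lemma alg9 (A B f1 f2 f3 fm f0 fp g1 g2 g3 gm g0 gp : ℕ)
    (a1 : f1 * gm ≤ fm * g1) (a2 : f2 * gm ≤ fm * g2) (a3 : f3 * gm ≤ fm * g3)
    (b1 : f1 * g0 ≤ f0 * g1) (b2 : f2 * g0 ≤ f0 * g2) (b3 : f3 * g0 ≤ f0 * g3)
    (c1 : f1 * gp ≤ fp * g1) (c2 : f2 * gp ≤ fp * g2) (c3 : f3 * gp ≤ fp * g3) :
    (f1 + A * f2 + f3) * (gm + B * g0 + gp) ≤ (fm + B * f0 + fp) * (g1 + A * g2 + g3) := by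
  have a2' := Nat.mul_le_mul_left A a2
  have b1' := Nat.mul_le_mul_left B b1
  have b2' := Nat.mul_le_mul_left (A * B) b2
  have b3' := Nat.mul_le_mul_left B b3
  have c2' := Nat.mul_le_mul_left A c2
  calc (f1 + A * f2 + f3) * (gm + B * g0 + gp)
      = f1 * gm + A * (f2 * gm) + f3 * gm + (B * (f1 * g0) + A * B * (f2 * g0) + B * (f3 * g0))
        + (f1 * gp + A * (f2 * gp) + f3 * gp) := by ring
    _ ≤ fm * g1 + A * (fm * g2) + fm * g3 + (B * (f0 * g1) + A * B * (f0 * g2) + B * (f0 * g3))
        + (fp * g1 + A * (fp * g2) + fp * g3) := by gcongr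
    _ = _ := by ring

lemma alg6 (v f0 f1 f2 fm g0 g1 g2 gm : ℕ)
    (h1 : f0 * gm ≤ fm * g0) (h2 : f1 * gm ≤ fm * g1) (h3 : f2 * gm ≤ fm * g2)
    (h4 : f1 * g0 ≤ f0 * g1) (h5 : f2 * g0 ≤ f0 * g2) (h6 : f2 * g1 ≤ f1 * g2) :
    (f0 + (v + 3) * f1 + f2) * (gm + (v + 2) * g0 + g1) ≤
      (fm + (v + 2) * f0 + f1) * (g0 + (v + 3) * g1 + g2) := by
  have h2' := Nat.mul_le_mul_left (v + 3) h2
  have h4' := Nat.mul_le_mul_left (v * v + 5 * v + 5) h4
  have h5' := Nat.mul_le_mul_left (v + 2) h5
  calc (f0 + (v + 3) * f1 + f2) * (gm + (v + 2) * g0 + g1)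
      = f0 * gm + (v + 3) * (f1 * gm) + f2 * gm + (v * v + 5 * v + 5) * (f1 * g0) + f1 * g0
        + (v + 2) * (f0 * g0) + f0 * g1 + (v + 3) * (f1 * g1)
        + (v + 2) * (f2 * g0) + f2 * g1 := by ring
    _ ≤ fm * g0 + (v + 3) * (fm * g1) + fm * g2 + (v * v + 5 * v + 5) * (f0 * g1) + f1 * g0
        + (v + 2) * (f0 * g0) + f0 * g1 + (v + 3) * (f1 * g1)
        + (v + 2) * (f0 * g2) + f1 * g2 := by gcongr
    _ = _ := by ring

lemma LR.step {f g : ℕ → ℕ} (h : LR f g) : LR (step f) (step g) := by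
  have key : ∀ a b, b ≤ a → f a * g b ≤ f b * g a := by
    intro a b hab
    rcases hab.lt_or_eq with h1 | h1
    · exact h b a h1
    · rw [h1]
  intro v v' hvv
  obtain ⟨k, rfl⟩ : ∃ k, v' = v + 1 + k := ⟨v' - v - 1, by omega⟩
  rcases Nat.eq_zero_or_pos v with hv | hv
  · subst hv
    rcases Nat.eq_zero_or_pos k with hk | hk
    · subst hk
      have := alg6 0 (f 0) (f 1) (f 2) 0 (g 0) (g 1) (g 2) 0 (by simp) (by simp) (by simp)
        (key 1 0 (by omega)) (key 2 0 (by omega)) (key 2 1 (by omega))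
      simpa [step_zero, step_succ] using this
    · obtain ⟨m, rfl⟩ : ∃ m, k = m + 1 := ⟨k - 1, by omega⟩
      have := alg9 (m + 4) 2 (f (m + 1)) (f (m + 2)) (f (m + 3)) 0 (f 0) (f 1)
        (g (m + 1)) (g (m + 2)) (g (m + 3)) 0 (g 0) (g 1) (by simp) (by simp) (by simp)
        (key _ 0 (by omega)) (key _ 0 (by omega)) (key _ 0 (by omega))
        (key _ 1 (by omega)) (key _ 1 (by omega)) (key _ 1 (by omega))
      have e : 0 + 1 + (m + 1) = (m + 1) + 1 := by ring
      rw [e, step_zero, step_succ, step_zero, step_succ]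
      simpa using this
  · obtain ⟨w, rfl⟩ : ∃ w, v = w + 1 := ⟨v - 1, by omega⟩
    rcases Nat.eq_zero_or_pos k with hk | hk
    · subst hk
      rw [add_zero, step_succ, step_succ, step_succ, step_succ]
      exact alg6 (w + 1) (f (w + 1)) (f (w + 2)) (f (w + 3)) (f w) (g (w + 1)) (g (w + 2))
        (g (w + 3)) (g w) (key _ _ (by omega)) (key _ _ (by omega)) (key _ _ (by omega))
        (key _ _ (by omega)) (key _ _ (by omega)) (key _ _ (by omega))
    · obtain ⟨m, rfl⟩ : ∃ m, k = m + 1 := ⟨k - 1, by omega⟩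
      have e : w + 1 + 1 + (m + 1) = (w + m + 2) + 1 := by ring
      rw [e, step_succ, step_succ, step_succ, step_succ]
      exact alg9 (w + m + 2 + 3) (w + 3) (f (w + m + 2)) (f (w + m + 2 + 1)) (f (w + m + 2 + 2))
        (f w) (f (w + 1)) (f (w + 2)) (g (w + m + 2)) (g (w + m + 2 + 1)) (g (w + m + 2 + 2))
        (g w) (g (w + 1)) (g (w + 2)) (key _ _ (by omega)) (key _ _ (by omega))
        (key _ _ (by omega)) (key _ _ (by omega)) (key _ _ (by omega)) (key _ _ (by omega))
        (key _ _ (by omega)) (key _ _ (by omega)) (key _ _ (by omega))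

lemma LR_zero (g : ℕ → ℕ) : LR (G 0 0) g := by
  intro v v' h
  have : G 0 0 v' = 0 := by
    change (if v' = 0 then 1 else 0) = 0
    rw [if_neg (by omega)]
  rw [this]; simp

lemma LR_G (n u : ℕ) : LR (G 0 n) (G u n) := by
  induction n with
  | zero => exact LR_zero _
  | succ n ih => exact ih.step

lemma LR_succ (n m : ℕ) : LR (G 0 n) (G 0 (n + m)) := by
  induction n with
  | zero => exact LR_zero _
  | succ n ih =>
    have e : n + 1 + m = (n + m) + 1 := by ring
    rw [e]
    exact ih.step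

/-! ### growth -/

lemma G_succ (u n v : ℕ) : G u (n + 1) v =
    (if v = 0 then 0 else G u n (v - 1)) + (v + 2) * G u n v + G u n (v + 1) := rfl

lemma G_diag (k : ℕ) : 1 ≤ G 0 k k := by
  induction k with
  | zero => simp [G]
  | succ k ih =>
    rw [G_succ, if_neg (by omega), Nat.add_sub_cancel]
    omega

lemma G_stay (k s : ℕ) : (k + 2) ^ s ≤ G 0 (k + s) k := by
  induction s with
  | zero => simpa using G_diag k
  | succ s ih =>
    have e : k + (s + 1) = (k + s) + 1 := by ring
    rw [e, G_succ, pow_succ]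
    have := Nat.mul_le_mul_left (k + 2) ih
    have h2 : (k + 2) ^ s * (k + 2) = (k + 2) * (k + 2) ^ s := by ring
    omega

lemma G_down (w j s : ℕ) : (w + j + 2) ^ s ≤ G 0 (w + j + s + j) w := by
  induction j generalizing w with
  | zero => simpa using G_stay w s
  | succ j ih =>
    have e : w + (j + 1) + s + (j + 1) = (w + 1 + j + s + j) + 1 := by ring
    rw [e, G_succ]
    have := ih (w + 1)
    have e2 : w + (j + 1) + 2 = w + 1 + j + 2 := by ring
    rw [e2]
    omega

lemma G_ratio (w C : ℕ) : ∃ n, 0 < G 0 n w ∧ C * G 0 n w ≤ G 0 n (w + 1) := by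
  by_contra hcon
  push Not at hcon
  have hpos : ∀ n, w ≤ n → 0 < G 0 n w := by
    intro n hn
    obtain ⟨s, rfl⟩ : ∃ s, n = w + s := ⟨n - w, by omega⟩
    exact lt_of_lt_of_le (by positivity) (G_stay w s)
  set A := if w = 0 then 0 else G 0 w (w - 1) with hA
  have hA' : ∀ n, w ≤ n → (if w = 0 then 0 else G 0 n (w - 1)) ≤ A * G 0 n w := by
    intro n hn
    rw [hA]
    split_ifs with h0
    · simp
    · obtain ⟨m, rfl⟩ : ∃ m, n = w + m := ⟨n - w, by omega⟩
      have h1 := LR_succ w m (w - 1) w (by omega)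
      have h2 := G_diag w
      calc G 0 (w + m) (w - 1) = 1 * G 0 (w + m) (w - 1) := by ring
        _ ≤ G 0 w w * G 0 (w + m) (w - 1) := Nat.mul_le_mul_right _ h2
        _ ≤ _ := h1
  set K := A + (w + 2) + C with hK
  have hstep : ∀ n, w ≤ n → G 0 (n + 1) w ≤ K * G 0 n w := by
    intro n hn
    rw [G_succ]
    have h1 := hA' n hn
    have h2 := hcon n (hpos n hn)
    rw [hK]
    nlinarith
  have hup : ∀ m, G 0 (w + m) w ≤ K ^ m * G 0 w w := by
    intro m
    induction m with
    | zero => simp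
    | succ m ih =>
      have e : w + (m + 1) = (w + m) + 1 := by ring
      rw [e]
      calc G 0 (w + m + 1) w ≤ K * G 0 (w + m) w := hstep _ (by omega)
        _ ≤ K * (K ^ m * G 0 w w) := Nat.mul_le_mul_left _ ih
        _ = K ^ (m + 1) * G 0 w w := by ring
  set s := K ^ (4 * K) * G 0 w w with hs
  have h1 := G_down w (2 * K) s
  have e : w + 2 * K + s + 2 * K = w + (4 * K + s) := by ring
  rw [e] at h1
  have h2 := le_trans h1 (hup _)
  have hK1 : 1 ≤ K := by omega
  have h3 : (2 * K) ^ s ≤ (w + 2 * K + 2) ^ s := Nat.pow_le_pow_left (by omega) s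
  have h4 : 2 ^ s * K ^ s ≤ s * K ^ s := by
    calc 2 ^ s * K ^ s = (2 * K) ^ s := by rw [mul_pow]
      _ ≤ K ^ (4 * K + s) * G 0 w w := le_trans h3 h2
      _ = s * K ^ s := by rw [hs, pow_add]; ring
  have h5 : 2 ^ s ≤ s := Nat.le_of_mul_le_mul_right h4 (by positivity)
  exact absurd Nat.lt_two_pow_self (not_lt.mpr h5)

lemma G_uniform (w C : ℕ) : ∃ n, ∀ u, C * G u n w ≤ G u n (w + 1) := by
  obtain ⟨n, hn, hC⟩ := G_ratio w C
  refine ⟨n, fun u => ?_⟩
  have h1 := LR_G n u w (w + 1) (by omega)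
  have h2 : G 0 n w * (C * G u n w) ≤ G 0 n w * G u n (w + 1) := by
    calc G 0 n w * (C * G u n w) = (C * G 0 n w) * G u n w := by ring
      _ ≤ G 0 n (w + 1) * G u n w := Nat.mul_le_mul_right _ hC
      _ ≤ _ := h1
  exact Nat.le_of_mul_le_mul_left h2 hn

/-! ### measures -/

lemma tsum_tri (v : ℕ) (g : ℕ → ℝ≥0∞) : ∑' w, (tri w v : ℝ≥0∞) * g w =
    (if v = 0 then 0 else g (v - 1)) + ((v : ℝ≥0∞) + 2) * g v + g (v + 1) := by
  rcases Nat.eq_zero_or_pos v with hv | hv
  · subst hv
    rw [tsum_eq_sum (s := {0, 1})]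
    · rw [Finset.sum_pair (by omega)]
      simp [tri]
    · intro w hw
      simp only [Finset.mem_insert, Finset.mem_singleton, not_or] at hw
      have : tri w 0 = 0 := by
        unfold tri
        rw [if_neg (by omega), if_neg (by omega)]
      rw [this]; simp
  · obtain ⟨k, rfl⟩ : ∃ k, v = k + 1 := ⟨v - 1, by omega⟩
    rw [tsum_eq_sum (s := {k, k + 1, k + 1 + 1})]
    · rw [Finset.sum_insert (by simp; omega), Finset.sum_pair (by omega)]
      have h1 : tri k (k + 1) = 1 := by
        unfold tri; rw [if_neg (by omega), if_pos (by omega)]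
      have h2 : tri (k + 1) (k + 1) = k + 1 + 2 := by
        unfold tri; rw [if_pos rfl]
      have h3 : tri (k + 1 + 1) (k + 1) = 1 := by
        unfold tri; rw [if_neg (by omega), if_pos (by omega)]
      rw [h1, h2, h3, if_neg (by omega), Nat.add_sub_cancel]
      push_cast
      ring
    · intro w hw
      simp only [Finset.mem_insert, Finset.mem_singleton, not_or] at hw
      have : tri w (k + 1) = 0 := by
        unfold tri
        rw [if_neg (by omega), if_neg (by omega)]
      rw [this]; simp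

lemma iterate_rec (n : ℕ) (p : ℕ → ℕ → ℝ≥0∞)
    (hp : ∀ n v, p n v = ∑' w, (tri w v : ℝ≥0∞) * p (n + 1) w) (v : ℕ) :
    p 0 v = ∑' u, (G u n v : ℝ≥0∞) * p n u := by
  induction n generalizing p v with
  | zero =>
    rw [tsum_eq_single v]
    · simp [G]
    · intro u hu
      simp [G, Ne.symm hu]
  | succ n ih =>
    have h1 : ∀ w, p 1 w = ∑' u, (G u n w : ℝ≥0∞) * p (n + 1) u :=
      fun w => ih (fun n => p (n + 1)) (fun n v => hp (n + 1) v) w
    rw [hp 0 v]
    simp only [zero_add]
    simp_rw [h1, ← ENNReal.tsum_mul_left]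
    rw [ENNReal.tsum_comm]
    congr 1; ext u
    simp_rw [← mul_assoc]
    rw [ENNReal.tsum_mul_right]
    congr 1
    rw [tsum_tri v (fun w => (G u n w : ℝ≥0∞)), G_succ]
    split_ifs <;> push_cast <;> ring

/-- the loop at `v` -/
def loop (v : ℕ) : Edge tri := ⟨(v, v), ⟨0, by unfold tri; rw [if_pos rfl]; omega⟩⟩

lemma isFinPath_ext (v : ℕ) (n : ℕ) (o : Out tri v) :
    IsFinPath (Function.update (fun _ => loop v) (n + 1) (toEdge v o)) (n + 1) := by
  intro i hi
  rw [Function.update_of_ne (by omega)]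
  by_cases h : i + 1 = n + 1
  · rw [h, Function.update_self]; rfl
  · rw [Function.update_of_ne h]; rfl

lemma mass_rec (μ : Measure (Path tri)) (h : TailInvariant μ) (n v : ℕ) :
    μ (cyl (fun _ => loop v) n) =
      ∑' w, (tri w v : ℝ≥0∞) * μ (cyl (fun _ => loop w) (n + 1)) := by
  have hset : cyl (fun _ => loop v) n = ⋃ o : Out tri v,
      cyl (Function.update (fun _ => loop v) (n + 1) (toEdge v o)) (n + 1) := by
    ext x
    simp only [Set.mem_iUnion]
    constructor
    · intro hx
      have h1 : src (x.1 (n + 1)) = v := by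
        rw [← x.2 n, hx n le_rfl]; rfl
      subst h1
      refine ⟨ofEdge (x.1 (n + 1)), fun i hi => ?_⟩
      by_cases h : i = n + 1
      · subst h; rw [Function.update_self]; rfl
      · rw [Function.update_of_ne h]; exact hx i (by omega)
    · rintro ⟨o, ho⟩ i hi
      have := ho i (by omega)
      rw [Function.update_of_ne (by omega)] at this
      exact this
  rw [hset, measure_iUnion]
  · rw [← tsum_out (F := tri) v (fun w => μ (cyl (fun _ => loop w) (n + 1)))]
    congr 1; ext o
    apply h.2 _ _ _ (isFinPath_ext v n o) (fun i _ => rfl)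
    rw [Function.update_self]; rfl
  · intro o o' hoo
    rw [Function.onFun, Set.disjoint_left]
    intro x hx hx'
    have h1 := hx (n + 1) le_rfl
    have h2 := hx' (n + 1) le_rfl
    rw [Function.update_self] at h1 h2
    exact hoo (toEdge_inj v (h1.symm.trans h2))
  · intro o
    exact measurableSet_cyl _ _ (isFinPath_ext v n o)

lemma mass_rec_zero (μ : Measure (Path tri)) (h : TailInvariant μ) (v : ℕ) :
    μ {x | src (x.1 0) = v} =
      ∑' w, (tri w v : ℝ≥0∞) * μ (cyl (fun _ => loop w) 0) := by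
  have hset : {x : Path tri | src (x.1 0) = v} = ⋃ o : Out tri v,
      cyl (fun _ => toEdge v o) 0 := by
    ext x
    simp only [Set.mem_iUnion]
    constructor
    · intro hx
      have hx' : src (x.1 0) = v := hx
      subst hx'
      refine ⟨ofEdge (x.1 0), fun i hi => ?_⟩
      have : i = 0 := by omega
      subst this; rfl
    · rintro ⟨o, ho⟩
      have := ho 0 le_rfl
      change src (x.1 0) = v
      rw [this]; rfl
  rw [hset, measure_iUnion]
  · rw [← tsum_out (F := tri) v (fun w => μ (cyl (fun _ => loop w) 0))]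
    congr 1; ext o
    apply h.2 _ _ _ (fun i hi => absurd hi (by omega)) (fun i _ => rfl)
    rfl
  · intro o o' hoo
    rw [Function.onFun, Set.disjoint_left]
    intro x hx hx'
    have h1 := hx 0 le_rfl
    have h2 := hx' 0 le_rfl
    exact hoo (toEdge_inj v (h1.symm.trans h2))
  · intro o
    exact measurableSet_cyl _ _ (fun i hi => absurd hi (by omega))

/-- **Q2, negative answer.** Every tail-invariant measure of the stationary generalized Bratteli
diagram with the tridiagonal incidence matrix gives infinite mass to the set of paths that start at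
some vertex; in particular there is no tail-invariant probability measure, with or without full
support. -/
theorem result (μ : Measure (Path tri)) (h : TailInvariant μ) :
    (∃ v : ℕ, μ {x | src (x.1 0) = v} = ∞) ∧ μ Set.univ = ∞ := by
  set p : ℕ → ℕ → ℝ≥0∞ := fun n v =>
    Nat.casesOn n (μ {x | src (x.1 0) = v}) (fun m => μ (cyl (fun _ => loop v) m)) with hp
  have hrec : ∀ n v, p n v = ∑' w, (tri w v : ℝ≥0∞) * p (n + 1) w := by
    intro n v
    cases n with
    | zero => exact mass_rec_zero μ h v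
    | succ n => exact mass_rec μ h n v
  have hstep : ∀ v, p 0 (v + 1) ≠ ∞ → p 0 v = 0 := by
    intro v hv
    have h1 : ∀ C : ℕ, C * p 0 v ≤ p 0 (v + 1) := by
      intro C
      obtain ⟨n, hn⟩ := G_uniform v C
      rw [iterate_rec n p hrec v, iterate_rec n p hrec (v + 1), ← ENNReal.tsum_mul_left]
      apply ENNReal.tsum_le_tsum
      intro u
      rw [← mul_assoc]
      gcongr
      exact_mod_cast hn u
    by_contra h0
    obtain ⟨C, hC⟩ := ENNReal.exists_nat_mul_gt h0 hv
    exact absurd (h1 C) (not_le.mpr hC)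
  have hex : ∃ v : ℕ, μ {x | src (x.1 0) = v} = ∞ := by
    by_contra hcon
    push Not at hcon
    apply h.1
    rw [← Measure.measure_univ_eq_zero]
    have : (Set.univ : Set (Path tri)) = ⋃ v : ℕ, {x | src (x.1 0) = v} := by
      ext x; simp
    rw [this]
    apply measure_iUnion_null
    intro v
    exact hstep v (hcon (v + 1))
  refine ⟨hex, ?_⟩
  obtain ⟨v, hv⟩ := hex
  exact top_le_iff.mp (hv ▸ measure_mono (Set.subset_univ _))

end Pool.Agent.Results.MP_17dcfb_an.NoFiniteMeasureTridiagonal
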